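import Pool.Agent.H66.SYM.Basic

/-!
# The value of a virtual representation at the identity does not depend on the place
-/

namespace Pool.H66.SYM

open Filter Topology

theorem DEG_loc (A : Aut) (z : A.Cusp) (v : A.Pl) (n : ℕ) (k : ℤ) :
    ((A.loc z v n 1).map fun a => a * ((1 : ℂˣ) : ℂ) ^ k).sum = ((A.loc z v n 1).card : ℂ) := by
  have h := A.loc_pow z v n 1 0
  rw [zpow_zero] at h
  have h1 : ∀ a ∈ A.loc z v n 1, a = 1 := by
    intro a ha
    rw [h] at ha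
    obtain ⟨b, -, rfl⟩ := Multiset.mem_map.1 ha
    simp
  have h2 : (A.loc z v n 1).map (fun a => a * ((1 : ℂˣ) : ℂ) ^ k) =
      (A.loc z v n 1).map (fun _ => (1 : ℂ)) := by
    refine Multiset.map_congr rfl fun a ha => ?_
    rw [h1 a ha]
    simp
  rw [h2]
  simp

theorem DEG_sum {ι : Type} (s : Finset ι) (f : ι → Multiset ℂ) :
    (∑ i ∈ s, f i).sum = ∑ i ∈ s, (f i).sum :=
  map_sum (Multiset.sumAddMonoidHom : Multiset ℂ →+ ℂ) f s

theorem DEG_tr (A : Aut) (z : A.Cusp) (v : A.Pl) : A.tr z ⟨v, 1, 1⟩ = (A.deg z : ℂ) := by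
  have hc := A.loc_card z v 1
  rw [← hc]
  unfold AData.tr AData.eig
  rw [DEG_sum]
  rw [Nat.cast_sum]
  refine Finset.sum_congr rfl fun n _ => ?_
  rw [DEG_sum, Finset.sum_congr rfl fun i _ => DEG_loc A z v n _]
  simp

theorem s_DEG (_hBAS : S_BAS) : S_DEG := by
  intro A τ m F hF v v'
  refine AddSubgroup.closure_induction (p := fun F _ => F ⟨v, 1, 1⟩ = F ⟨v', 1, 1⟩)
    ?_ ?_ ?_ ?_ hF
  · rintro _ ⟨z, -, rfl⟩
    rw [DEG_tr, DEG_tr]
  · rfl
  · intro x y _ _ hx hy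
    simp only [Pi.add_apply, hx, hy]
  · intro x _ hx
    simp only [Pi.neg_apply, hx]

end Pool.H66.SYM
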